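import Pool.Agent.HMT.Stmts

/-!
# Squad HMT, row KEQ: equality of the numbers `h_i`
-/

open scoped Classical

namespace Pool.Agent.HMT.H86

open Pool.Agent.HMT

theorem fin_setoid (V : Type) [Finite V] : Finite (Setoid V) := by
  have h : Function.Injective (fun π : Setoid V => π.r) := by
    intro π ρ h
    exact Setoid.ext fun a b => iff_of_eq (congrFun (congrFun h a) b)
  exact Finite.of_injective _ h

noncomputable instance (V : Type) [Finite V] : Fintype (Setoid V) :=
  @Fintype.ofFinite _ (fin_setoid V)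

/-- number of classes -/
noncomputable def nc {V : Type} (π : Setoid V) : ℕ := Nat.card (Quotient π)

/-- the number `h_i` as a sum -/
noncomputable def KK (F : Fr) (P : GProp) (i : ℕ) (ε : ℤˣ) (A : Finset F.R) : ℤ :=
  ∑ π : Setoid (F.Vert ε), if nc π = i then (if F.Val P ε A π then 1 else 0) else 0

theorem hc_eq (F : Fr) (P : GProp) (i : ℕ) (ε : ℤˣ) (A : Finset F.R) :
    (hc P (F.Gr ε A) i : ℤ) = KK F P i ε A := by
  have h1 : hc P (F.Gr ε A) i =
      Nat.card {π : Setoid (F.Vert ε) // nc π = i ∧ F.Val P ε A π} := rfl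
  rw [h1, Nat.card_eq_fintype_card, Fintype.card_subtype]
  unfold KK
  rw [Finset.card_filter]
  push_cast
  refine Finset.sum_congr rfl fun π _ => ?_
  by_cases h2 : nc π = i <;> by_cases h3 : F.Val P ε A π <;> simp [h2, h3]

/-- the alternating sum for one partition -/
noncomputable def SS (F : Fr) (P : GProp) (ε : ℤˣ) (A : Finset F.R)
    (π : Setoid (F.Vert ε)) : ℤ :=
  ∑ Z ∈ A.powerset, (-1 : ℤ) ^ Z.card * (if F.Val P ε Z π then 1 else 0)

theorem alt_eq (F : Fr) (P : GProp) (i : ℕ) (ε : ℤˣ) (A : Finset F.R) :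
    ∑ Z ∈ A.powerset, (-1 : ℤ) ^ Z.card * KK F P i ε Z =
      ∑ π : Setoid (F.Vert ε), if nc π = i then SS F P ε A π else 0 := by
  unfold KK
  simp only [Finset.mul_sum]
  rw [Finset.sum_comm]
  refine Finset.sum_congr rfl fun π _ => ?_
  by_cases h : nc π = i
  · simp only [if_pos h]
    rfl
  · simp only [if_neg h, mul_zero, Finset.sum_const_zero]

/-- transport of partitions -/
def tr {V W : Type} (σ : V ≃ W) : Setoid V ≃ Setoid W where
  toFun := fun π => π.comap σ.symm
  invFun := fun π => π.comap σ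
  left_inv := fun π => by
    refine Setoid.ext fun a b => ?_
    simp only [Setoid.comap_rel, Equiv.symm_apply_apply]
  right_inv := fun π => by
    refine Setoid.ext fun a b => ?_
    simp only [Setoid.comap_rel, Equiv.apply_symm_apply]

theorem nc_tr {V W : Type} (σ : V ≃ W) (π : Setoid V) : nc (π.comap σ.symm) = nc π := by
  unfold nc
  refine Nat.card_congr (Quotient.congr σ.symm fun a b => ?_)
  exact Iff.rfl

section

variable (can : CanStmt) (con : ConStmt) (xsy : XsyStmt) (blk : BlkStmt)

include can in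
theorem ss_zero {F : Fr} {P : GProp} {ε : ℤˣ} {A : Finset F.R} {π : Setoid (F.Vert ε)}
    (h : ¬ ∀ r ∈ A, F.Ins π r) : SS F P ε A π = 0 := by
  push Not at h
  obtain ⟨r, hr, hr2⟩ := h
  exact can F P ε A π r hr hr2

include can con xsy blk in
theorem ss_eq {F : Fr} {P : GProp} {g s : ℕ} (hI : Insens P g s) (hT : F.AllThin g)
    {A : Finset F.R} {j k : F.J} {ψ : Equiv.Perm F.R} (h : F.Xch A s j k ψ)
    (π : Setoid (F.Vert 1)) :
    SS F P 1 A π = SS F P (-1) A (π.comap (F.sig 1 (-1) rfl j k h.ne ψ).symm) := by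
  by_cases hin : ∀ r ∈ A, F.Ins π r
  · obtain ⟨-, -, hmap⟩ := con F 1 (-1) rfl A s j k ψ h π hin
    unfold SS
    refine Finset.sum_bij (fun Z _ => Z.map ψ.toEmbedding) ?_ ?_ ?_ ?_
    · intro Z hZ
      rw [Finset.mem_powerset] at hZ ⊢
      rw [← hmap]
      exact Finset.map_subset_map.2 hZ
    · intro Z _ Z' _ hZZ
      exact Finset.map_injective _ hZZ
    · intro Z hZ
      rw [Finset.mem_powerset] at hZ
      refine ⟨Z.map ψ.symm.toEmbedding, ?_, ?_⟩
      · rw [Finset.mem_powerset]
        have h2 : A.map ψ.symm.toEmbedding = A := by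
          conv_lhs => rw [← hmap]
          rw [Finset.map_map]
          have h3 : ψ.toEmbedding.trans ψ.symm.toEmbedding = Function.Embedding.refl _ := by
            ext x
            simp
          rw [h3, Finset.map_refl]
        rw [← h2]
        exact Finset.map_subset_map.2 hZ
      · rw [Finset.map_map]
        have h3 : ψ.symm.toEmbedding.trans ψ.toEmbedding = Function.Embedding.refl _ := by
          ext x
          simp
        rw [h3, Finset.map_refl]
    · intro Z hZ
      rw [Finset.mem_powerset] at hZ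
      have h4 := blk F P g s hI hT 1 (-1) rfl A j k ψ h π hin Z hZ
      rw [Finset.card_map]
      by_cases h5 : F.Val P 1 Z π
      · rw [if_pos h5, if_pos (h4.1 h5)]
      · rw [if_neg h5, if_neg fun h6 => h5 (h4.2 h6)]
  · rw [ss_zero can hin, ss_zero can]
    intro hin'
    apply hin
    have hx := xsy F A s j k ψ h
    obtain ⟨-, h7, -⟩ := con F (-1) 1 (neg_neg 1).symm A s j k ψ.symm hx _ hin'
    intro r hr
    have h8 := h7 r hr
    have h9 : (π.comap (F.sig 1 (-1) rfl j k h.ne ψ).symm).comap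
        (F.sig (-1) 1 (neg_neg 1).symm j k hx.ne ψ.symm).symm = π := by
      refine Setoid.ext fun a b => ?_
      rw [Setoid.comap_rel, Setoid.comap_rel]
      have h10 : ∀ v, (F.sig 1 (-1) rfl j k h.ne ψ).symm
          ((F.sig (-1) 1 (neg_neg 1).symm j k hx.ne ψ.symm).symm v) = v := by
        intro v
        exact (F.sig 1 (-1) rfl j k h.ne ψ).symm_apply_apply v
      rw [h10, h10]
    rwa [h9] at h8

/-- row KEQ -/
theorem keq (can : CanStmt) (con : ConStmt) (xsy : XsyStmt) (blk : BlkStmt) : KeqStmt := by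
  intro F P g s hI hT hX A i
  have halt : ∀ A : Finset F.R, ∑ Z ∈ A.powerset, (-1 : ℤ) ^ Z.card * KK F P i 1 Z =
      ∑ Z ∈ A.powerset, (-1 : ℤ) ^ Z.card * KK F P i (-1) Z := by
    intro A
    rw [alt_eq, alt_eq]
    obtain ⟨j, k, ψ, h⟩ := hX A
    refine Fintype.sum_equiv (tr (F.sig 1 (-1) rfl j k h.ne ψ)) _ _ fun π => ?_
    have h1 : (tr (F.sig 1 (-1) rfl j k h.ne ψ)) π =
      π.comap (F.sig 1 (-1) rfl j k h.ne ψ).symm := rfl
    rw [h1, nc_tr, ss_eq can con xsy blk hI hT h π]
  have hKK : KK F P i 1 A = KK F P i (-1) A := by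
    induction A using Finset.strongInduction with
    | H A ih =>
      have h1 := halt A
      rw [← Finset.insert_erase (Finset.mem_powerset_self A),
        Finset.sum_insert (Finset.notMem_erase _ _),
        Finset.sum_insert (Finset.notMem_erase _ _)] at h1
      have h2 : ∑ Z ∈ A.powerset.erase A, (-1 : ℤ) ^ Z.card * KK F P i 1 Z =
          ∑ Z ∈ A.powerset.erase A, (-1 : ℤ) ^ Z.card * KK F P i (-1) Z := by
        refine Finset.sum_congr rfl fun Z hZ => ?_
        rw [Finset.mem_erase, Finset.mem_powerset] at hZ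
        rw [ih Z (lt_of_le_of_ne hZ.2 hZ.1)]
      rw [h2] at h1
      have h3 := add_right_cancel h1
      exact mul_left_cancel₀ (pow_ne_zero _ (by norm_num)) h3
  have h4 := hc_eq F P i 1 A
  have h5 := hc_eq F P i (-1) A
  exact_mod_cast h4.trans (hKK.trans h5.symm)

end

end Pool.Agent.HMT.H86
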